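import Pool.Agent.Results.MP_14cf73_nt.ExceptionsByHeight
import Pool.Agent.Run7.h469.Ab

set_option autoImplicit false

namespace Run7.h469.AB.P14cf73

open Finset
open Run7.h469.Ab

/-- if `(u, v, u + v)` is an admissible triple, then `u + v < C H (u v (u + v)) ^ M` -/
def Good (C M : ℝ) (u v : ℕ) : Prop :=
  0 < u → 0 < v → Nat.Coprime u v →
    ((u + v : ℕ) : ℝ) < C * Pool.Agent.Results.MP_14cf73_nt.ExceptionsByHeight.H (u * v * (u + v)) ^ M

theorem good_zero (C M : ℝ) (u v : ℕ) (h : u = 0 ∨ v = 0) : Good C M u v := by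
  intro hu hv
  omega

theorem few (C M : ℝ) (hC : 0 < C) (hM : 0 < M) : FewPairs (2 / (3 * M)) (Good C M) := by
  classical
  apply fewPairs_of
  intro ε hε
  obtain ⟨K, hK, hC'⟩ := Pool.Agent.Results.MP_14cf73_nt.ExceptionsByHeight.result C M ε hC hM hε
  refine ⟨K * 2 ^ (2 / (3 * M) + ε), fun H hH F hF => ?_⟩
  have hH1 : (1 : ℝ) ≤ H := by exact_mod_cast hH
  obtain ⟨h1, h2⟩ := hC' (2 * (H : ℝ)) (by linarith)
  have h3 : F.card ≤ (Pool.Agent.Results.MP_14cf73_nt.ExceptionsByHeight.exceptions C M (2 * (H : ℝ))).ncard := by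
    rw [Set.ncard_eq_toFinset_card _ h1]
    apply card_le_card
    intro z hz
    obtain ⟨k1, k2, k3, k4, k5⟩ := hF z hz
    unfold Good at k5
    push Not at k5
    obtain ⟨k6, k7, k8, k9⟩ := k5
    rw [Set.Finite.mem_toFinset]
    refine ⟨k6, k7, k8, ?_, k9⟩
    exact_mod_cast (by omega : z.1 + z.2 ≤ 2 * H)
  calc (F.card : ℝ) ≤
      ((Pool.Agent.Results.MP_14cf73_nt.ExceptionsByHeight.exceptions C M (2 * (H : ℝ))).ncard : ℝ) := by
        exact_mod_cast h3
    _ ≤ K * (2 * (H : ℝ)) ^ (2 / (3 * M) + ε) := h2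
    _ = K * 2 ^ (2 / (3 * M) + ε) * (H : ℝ) ^ (2 / (3 * M) + ε) := by
        rw [Real.mul_rpow (by positivity) (by positivity)]
        ring

end Run7.h469.AB.P14cf73
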