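import Pool.Agent.W221.ABC.Main7
import Pool.Agent.Run7.h469.Ab

set_option autoImplicit false

namespace Run7.h469.AB.P4ab349

open Finset
open Run7.h469.Ab

/-- the product of the distinct primes dividing `n` -/
def rad (n : ℕ) : ℕ := ∏ p ∈ n.primeFactors, p

/-- if `(u, v, u + v)` is an abc-triple, then `rad (u v (u + v)) > B (u + v) ^ (1 + η)`; the inequality of the problem is
weaker than the one for `η = 0` and `B = 1` -/
def Good (η B : ℝ) (u v : ℕ) : Prop :=
  0 < u → 0 < v → Nat.Coprime u v → B * ((u + v : ℕ) : ℝ) ^ (1 + η) < (rad (u * v * (u + v)) : ℝ)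

/-- increasing from `15 / 28` for `η = 0` to `2` for `η = 2` -/
noncomputable def f (η : ℝ) : ℝ :=
  if η ≤ 0 then 15 / 28 else if η ≤ 1 / 2 then 5 * (10 * η + 9) / 84
  else if η ≤ 7 / 9 then (9 * η + 8) / 15 else if η ≤ 1 then 1 else η

theorem Fx_eq (η : ℝ) (h0 : 0 ≤ η) : Pool.Agent.W221.ABC7.Fx (1 + η) = f η := by
  unfold Pool.Agent.W221.ABC7.Fx f
  rcases h0.eq_or_lt with h | h
  · subst h
    norm_num
  rw [if_neg (show ¬ (1 + η ≤ 2 / 3) by linarith), if_neg (show ¬ (1 + η ≤ 1) by linarith),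
    if_neg (show ¬ (η ≤ 0) by linarith)]
  by_cases h2 : η ≤ 1 / 2
  · rw [if_pos (show 1 + η ≤ 3 / 2 by linarith), if_pos h2]
    ring
  rw [if_neg (show ¬ (1 + η ≤ 3 / 2) by linarith), if_neg h2]
  by_cases h3 : η ≤ 7 / 9
  · rw [if_pos (show 1 + η ≤ 16 / 9 by linarith), if_pos h3]
    ring
  rw [if_neg (show ¬ (1 + η ≤ 16 / 9) by linarith), if_neg h3]
  by_cases h4 : η ≤ 1
  · rw [if_pos (show 1 + η ≤ 2 by linarith), if_pos h4]
  rw [if_neg (show ¬ (1 + η ≤ 2) by linarith), if_neg h4]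
  ring

theorem f_pos (η : ℝ) : 0 ≤ f η := by
  unfold f
  split_ifs <;> linarith

theorem f_lt (η : ℝ) (h : η < 2) : f η < 2 := by
  unfold f
  split_ifs <;> linarith

theorem good_zero (η B : ℝ) (u v : ℕ) (h : u = 0 ∨ v = 0) : Good η B u v := by
  intro hu hv
  omega

theorem few (η B : ℝ) (hη : 0 ≤ η) : FewPairs (f η) (Good η B) := by
  classical
  apply fewPairs_of
  intro ε hε
  obtain ⟨C, hC⟩ := Pool.Agent.W221.ABC7.count_FxB B (1 + η) ε (by linarith) hε
  rw [Fx_eq η hη] at hC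
  refine ⟨|C| * 2 ^ (f η + ε), fun H hH F hF => ?_⟩
  have h2 := hC (2 * H) (by omega)
  have h3 : F.card ≤ (Pool.Agent.W221.ABC7.ExcB B (1 + η) (2 * H)).ncard := by
    rw [Set.ncard_eq_toFinset_card _ (Pool.Agent.W221.ABC7.excB_finite B (1 + η) (2 * H))]
    apply card_le_card_of_injOn (fun z => (z.1, z.2, z.1 + z.2))
    · intro z hz
      obtain ⟨k1, k2, k3, k4, k5⟩ := hF z hz
      unfold Good at k5
      push Not at k5
      obtain ⟨k6, k7, k8, k9⟩ := k5
      rw [Set.Finite.coe_toFinset]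
      exact ⟨k6, k7, k8, rfl, by simp only; omega, k9⟩
    · intro z _ z' _ e
      simp only [Prod.mk.injEq] at e
      exact Prod.ext e.1 e.2.1
  calc (F.card : ℝ) ≤ ((Pool.Agent.W221.ABC7.ExcB B (1 + η) (2 * H)).ncard : ℝ) := by
        exact_mod_cast h3
    _ ≤ C * ((2 * H : ℕ) : ℝ) ^ (f η + ε) := h2
    _ ≤ |C| * ((2 * H : ℕ) : ℝ) ^ (f η + ε) := mul_le_mul_of_nonneg_right (le_abs_self C) (by positivity)
    _ = |C| * 2 ^ (f η + ε) * (H : ℝ) ^ (f η + ε) := by
        rw [Nat.cast_mul, Real.mul_rpow (by positivity) (by positivity)]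
        push_cast
        ring

end Run7.h469.AB.P4ab349
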